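import Pool.Agent.MP_070445_nt.V16.Lam

open Polynomial Finset

namespace H16v

variable {K : Type} [Field K]

/-- The curve `y ^ 2 = Φ ^ Q - l Φ` with `Q = 2 k + 1`. -/
structure Par (A : Dat K) (Φ : K[X]) (l : K) (k : ℕ) (ρ : K → K) : Prop where
  E : A.E = Φ ^ (2 * k + 1) - C l * Φ
  S : ∀ w, w ∈ A.S ↔ Φ.eval w ^ (2 * k) = 1
  y : ∀ w, A.y w = ρ (Φ.eval w)
  sq : ∀ z, ρ z ^ 2 = (1 - l) * z
  l0 : l ^ (2 * k) = 1
  l1 : l ≠ 1
  k0 : 0 < k
  deg : 0 < Φ.natDegree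
  frob : ∀ x y : K[X], (x - y) ^ (2 * k + 1) = x ^ (2 * k + 1) - y ^ (2 * k + 1)
  tr : ∀ v, Φ.eval v = Φ.eval 0 → Φ.comp (X - C v) = Φ
  b0 : Φ.eval 0 ^ (2 * k) = 1

/-- The fibre of `Φ` over `c`, with multiplicities. -/
noncomputable def ee (Φ : K[X]) (c : K) : K → ℤ := fun w => od w (Φ - C c)

variable {A : Dat K} {Φ : K[X]} {l : K} {k : ℕ} {ρ : K → K}

theorem ee_zero {c w : K} (h : Φ.eval w ≠ c) : ee Φ c w = 0 :=
  od_zero (by simpa [sub_eq_zero] using h)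

theorem Par.ne (H : Par A Φ l k ρ) (c : K) : Φ - C c ≠ 0 := fun h => by
  have := H.deg
  rw [sub_eq_zero.1 h, natDegree_C] at this
  omega

theorem Par.su (H : Par A Φ l k ρ) {c : K} (hc : c ^ (2 * k) = 1) : A.SU (Φ - C c) :=
  ⟨H.ne c, fun z hz => (H.S z).2 (by
    rw [IsRoot, eval_sub, eval_C, sub_eq_zero] at hz
    rwa [hz])⟩

theorem Par.rel (H : Par A Φ l k ρ) {a : K} (ha : a ^ (2 * k) = 1) :
    ∃ M : ℤ, ee Φ a - M • ee Φ (l ^ 2 * a) ∈ A.Lam := by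
  classical
  have a0 : a ≠ 0 := by
    rintro rfl
    rw [zero_pow (by have := H.k0; omega)] at ha
    exact zero_ne_one ha
  have s0 : ρ a ≠ 0 := fun h => by
    have := H.sq a
    rw [h, zero_pow two_ne_zero] at this
    exact mul_ne_zero (sub_ne_zero.2 H.l1.symm) a0 this.symm
  have h1 : (l ^ 2 * a) ^ (2 * k) = 1 := by
    rw [mul_pow, ha, ← pow_mul, mul_comm 2, pow_mul, H.l0]; simp
  have h2 : (l * a) ^ (2 * k) = 1 := by rw [mul_pow, ha, H.l0, mul_one]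
  have e1 : ((Φ - C (l * a)) ^ (k + 1)) ^ 2 - A.E * C (ρ a) ^ 2 =
      (Φ - C (l ^ 2 * a)) ^ (2 * k + 1) * (Φ - C a) := by
    rw [← pow_mul, show (k + 1) * 2 = 2 * k + 1 + 1 by ring, pow_succ _ (2 * k + 1), H.frob, H.frob,
      ← C_pow, ← C_pow, ← C_pow, pow_succ (l * a) (2 * k), pow_succ (l ^ 2 * a) (2 * k), h1, h2, H.sq,
      H.E]
    simp only [one_mul, C_mul, C_pow, C_sub, C_1]
    ring
  have e2 : A.SU (((Φ - C (l * a)) ^ (k + 1)) ^ 2 - A.E * C (ρ a) ^ 2) :=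
    e1 ▸ ((H.su h1).pow _).mul (H.su ha)
  let σ : K → ℤ := fun z => if (z - l * a) ^ (k + 1) - ρ a * ρ z = 0 then -1 else 1
  have e3 : σ a * σ a = 1 := by simp only [σ]; split_ifs <;> rfl
  have e4 : (fun w => σ (l ^ 2 * a) * (2 * k + 1 : ℕ) * ee Φ (l ^ 2 * a) w + σ a * ee Φ a w) ∈
      A.Lam := by
    refine ⟨_, _, e2, fun w hw => ?_⟩
    rw [A.del_sgn hw e2.1 fun h => s0 (by simpa using h.2), e1, od_mul _ (e1 ▸ e2.1), od_pow, H.y]
    simp only [eval_pow, eval_sub, eval_C]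
    change σ (Φ.eval w) * (_ * ee Φ _ w + ee Φ _ w) = _
    have b : ∀ c, σ (Φ.eval w) * ee Φ c w = σ c * ee Φ c w := fun c => by
      by_cases h : Φ.eval w = c
      · rw [h]
      · rw [ee_zero h, mul_zero, mul_zero]
    linear_combination ((2 * k + 1 : ℕ) : ℤ) * b (l ^ 2 * a) + b a
  refine ⟨-(σ a * σ (l ^ 2 * a) * (2 * k + 1 : ℕ)), A.congr (A.Lam.zsmul_mem e4 (σ a)) fun w _ => ?_⟩
  simp only [Pi.smul_apply, Pi.sub_apply, smul_eq_mul]
  linear_combination ee Φ a w * e3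

theorem Par.unit (H : Par A Φ l k ρ) {t u : K[X]} {c : K} {R : ℕ} (hc : c ≠ 0)
    (ht : t.eval 0 ≠ 0) (h : t ^ 2 - A.E * u ^ 2 = C c * X ^ R) :
    (R : ℤ) • ee Φ (Φ.eval 0) ∈ A.Lam := by
  classical
  have e1 : ∀ v, Φ.eval v = Φ.eval 0 → (R : ℤ) • (Pi.single v 1 : K → ℤ) ∈ A.Lam := fun v hv => by
    have a1 : t.comp (X - C v) ^ 2 - A.E * u.comp (X - C v) ^ 2 = C c * (X - C v) ^ R := by
      have := congrArg (fun P => P.comp (X - C v)) h
      simpa only [H.E, sub_comp, mul_comp, pow_comp, C_comp, X_comp, H.tr v hv] using this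
    have a2 : C c * (X - C v) ^ R ≠ 0 :=
      mul_ne_zero (C_ne_zero.2 hc) (pow_ne_zero _ (X_sub_C_ne_zero _))
    have a3 : ∀ z, (C c * (X - C v) ^ R).IsRoot z → z = v := fun z hz => by
      rw [IsRoot, eval_mul, eval_C, eval_pow, mul_eq_zero, or_iff_right hc, eval_sub, eval_X,
        eval_C] at hz
      exact sub_eq_zero.1 (eq_zero_of_pow_eq_zero hz)
    have a4 : A.SU (t.comp (X - C v) ^ 2 - A.E * u.comp (X - C v) ^ 2) :=
      a1 ▸ ⟨a2, fun z hz => (H.S z).2 (by rw [a3 z hz, hv, H.b0])⟩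
    let σ : ℤ := if (t.comp (X - C v)).eval v - (u.comp (X - C v)).eval v * A.y v = 0 then -1 else 1
    have a5 : σ * σ = 1 := by simp only [σ]; split_ifs <;> rfl
    have a6 : (σ * R) • (Pi.single v 1 : K → ℤ) ∈ A.Lam := by
      refine ⟨_, _, a4, fun w hw => ?_⟩
      rw [A.del_sgn hw a4.1 fun h1 => ht ?_, a1, od_mul _ a2, od_pow, od_zero (by simpa using hc),
        od_lin]
      · by_cases h2 : w = v
        · subst h2; simp [σ]
        · simp [h2]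
      · have a7 : w = v := a3 w (by
          rw [← a1, IsRoot, eval_sub, eval_mul, eval_pow, eval_pow, h1.1, h1.2]; simp)
        simpa [a7, eval_comp] using h1.1
    have := A.Lam.zsmul_mem a6 σ
    rwa [smul_smul, ← mul_assoc, a5, one_mul] at this
  refine A.congr (A.Lam.sum_mem (t := A.S) (f := fun v => ee Φ (Φ.eval 0) v • (R : ℤ) •
    (Pi.single v 1 : K → ℤ)) fun v _ => ?_) fun w hw => ?_
  · by_cases hv : Φ.eval v = Φ.eval 0
    · exact A.Lam.zsmul_mem (e1 v hv) _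
    · rw [ee_zero hv, zero_smul]; exact A.Lam.zero_mem
  · simp [Finset.sum_apply, Pi.single_apply, hw, mul_comm]

theorem Par.main [IsAlgClosed K] (H : Par A Φ l k ρ)
    (hl : ∀ i < k, ∀ j < k, l ^ (2 * i) = l ^ (2 * j) → i = j) {R : ℕ} (hR : 0 < R)
    (h : (R : ℤ) • ee Φ (Φ.eval 0) ∈ A.Lam) : 2 ^ k ≤ R := by
  classical
  have k0 := H.k0
  have l0 : l ≠ 0 := by
    rintro rfl
    exact zero_ne_one ((zero_pow (by omega)).symm.trans H.l0)
  have b0 : Φ.eval 0 ≠ 0 := fun h => zero_ne_one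
    ((zero_pow (show 2 * k ≠ 0 by omega)).symm.trans (h ▸ H.b0))
  let a : ℕ → K := fun j => (l ^ (2 * j))⁻¹ * Φ.eval 0
  have a1 : ∀ j, a j ^ (2 * k) = 1 := fun j => by
    simp only [a]
    rw [mul_pow, H.b0, inv_pow, ← pow_mul, mul_comm (2 * j), pow_mul, H.l0]; simp
  have a2 : ∀ j, ∃ M : ℤ, ee Φ (a j) - M • ee Φ (Φ.eval 0) ∈ A.Lam := fun j => by
    induction j with
    | zero => exact ⟨1, by simp [a]⟩
    | succ j ih =>
      obtain ⟨M, hM⟩ := ih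
      obtain ⟨N, hN⟩ := H.rel (a1 (j + 1))
      rw [show l ^ 2 * a (j + 1) = a j by simp only [a]; field_simp; ring] at hN
      have := A.Lam.add_mem hN (A.Lam.zsmul_mem hM N)
      rw [smul_sub, smul_smul, sub_add_sub_cancel] at this
      exact ⟨_, this⟩
  choose M hM using a2
  have a3 : ∀ j w, 0 ≤ ee Φ (a j) w := fun j w => od_nonneg w (H.ne _)
  have a4 : ∀ I ⊆ range k, ∀ J ⊆ range k, (∀ w ∈ A.S, ∑ j ∈ I, ee Φ (a j) w =
      ∑ j ∈ J, ee Φ (a j) w) → I ⊆ J := fun I hI J hJ h j hj => by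
    by_contra hj'
    obtain ⟨w, hw⟩ := IsAlgClosed.exists_root (Φ - C (a j)) (natDegree_pos_iff_degree_pos.1
      (by rw [natDegree_sub_C]; exact H.deg)).ne'
    have b1 := h w ((H.su (a1 j)).2 w hw)
    have b2 := single_le_sum (f := fun j => ee Φ (a j) w) (fun i _ => a3 i w) hj
    have b3 : 0 < ee Φ (a j) w := od_pos (H.ne _) hw
    rw [IsRoot, eval_sub, eval_C, sub_eq_zero] at hw
    rw [sum_eq_zero (s := J) fun i hi => ee_zero fun h => hj' ?_] at b1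
    · omega
    · rwa [hl j (mem_range.1 (hI hj)) i (mem_range.1 (hJ hi))
        (inv_injective (mul_right_cancel₀ b0 (hw.symm.trans h)))]
  by_contra hc
  obtain ⟨I, hI, J, hJ, h1, h2⟩ := exists_ne_map_eq_of_card_lt_of_maps_to
    (s := (range k).powerset) (t := Ico (0 : ℤ) R) (f := fun I => (∑ j ∈ I, M j) % R)
    (by simpa using hc) fun I _ => mem_coe.2 (mem_Ico.2 ⟨Int.emod_nonneg _ (by omega),
      Int.emod_lt_of_pos _ (by omega)⟩)
  rw [mem_powerset] at hI hJ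
  obtain ⟨q, hq⟩ := Int.ModEq.dvd h2
  have b1 := A.Lam.sub_mem (A.Lam.sub_mem (A.Lam.sum_mem (t := I) fun j _ => hM j)
    (A.Lam.sum_mem (t := J) fun j _ => hM j)) (A.Lam.zsmul_mem h q)
  have b2 : (fun w => ∑ j ∈ I, ee Φ (a j) w - ∑ j ∈ J, ee Φ (a j) w) ∈ A.Lam :=
    A.congr b1 fun w _ => by
      simp only [Pi.sub_apply, Finset.sum_apply, Pi.smul_apply, smul_eq_mul, sum_sub_distrib,
        ← sum_mul]
      linear_combination ee Φ (Φ.eval 0) w * hq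
  have b3 : ∀ w, ∀ I ⊆ range k, 0 ≤ ∑ j ∈ I, ee Φ (a j) w ∧
      ∑ j ∈ I, ee Φ (a j) w ≤ ∑ j ∈ range k, ee Φ (a j) w := fun w I hI =>
    ⟨sum_nonneg fun j _ => a3 j w, sum_le_sum_of_subset_of_nonneg hI fun j _ _ => a3 j w⟩
  have b4 : ∑ w ∈ A.S, ∑ j ∈ range k, ee Φ (a j) w = k * Φ.natDegree := by
    rw [sum_comm]
    exact (sum_congr rfl fun j _ => A.sum_od _ _ (natDegree_sub_C (p := Φ) (a := a j))
      (H.su (a1 j))).trans (by simp)
  have b5 : A.E.natDegree = (2 * k + 1) * Φ.natDegree := by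
    have := H.deg
    rw [H.E, natDegree_sub_eq_left_of_natDegree_lt, natDegree_pow]
    rw [natDegree_pow]
    exact (natDegree_C_mul_le _ _).trans_lt (by nlinarith)
  have b6 := A.lam_zero b2 (lt_of_le_of_lt (sum_le_sum (g := fun w => ∑ j ∈ range k, ee Φ (a j) w)
    fun w _ => by
      have c1 := b3 w I hI
      have c2 := b3 w J hJ
      rw [abs_le]; omega) (by
      have := H.deg
      rw [b4, b5]; push_cast; nlinarith))
  exact h1 ((a4 I hI J hJ fun w hw => sub_eq_zero.1 (b6 w hw)).antisymm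
    (a4 J hJ I hI fun w hw => (sub_eq_zero.1 (b6 w hw)).symm))

theorem exists_par [IsAlgClosed K] (h2 : (2 : K) ≠ 0) (l0 : l ^ (2 * k) = 1) (l1 : l ≠ 1)
    (k0 : 0 < k) (hd : Odd Φ.natDegree)
    (frob : ∀ x y : K[X], (x - y) ^ (2 * k + 1) = x ^ (2 * k + 1) - y ^ (2 * k + 1))
    (tr : ∀ v, Φ.eval v = Φ.eval 0 → Φ.comp (X - C v) = Φ) (b0 : Φ.eval 0 ^ (2 * k) = 1) :
    ∃ A ρ, Par A Φ l k ρ := by
  classical
  have d0 : 0 < Φ.natDegree := hd.pos
  choose ρ hρ using fun z : K => IsAlgClosed.exists_pow_nat_eq ((1 - l) * z) two_pos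
  have hS : ∀ w, w ∈ (Φ ^ (2 * k) - C 1).roots.toFinset ↔ Φ.eval w ^ (2 * k) = 1 := fun w => by
    rw [Multiset.mem_toFinset, mem_roots fun h => by
      have := congrArg natDegree h
      rw [natDegree_sub_C, natDegree_pow, natDegree_zero] at this
      nlinarith]
    simp [sub_eq_zero]
  have y0 : ∀ w, Φ.eval w ^ (2 * k) = 1 → ρ (Φ.eval w) ≠ 0 := fun w hw h => by
    have := hρ (Φ.eval w)
    rw [h, zero_pow two_ne_zero, eq_comm, mul_eq_zero, or_iff_right (sub_ne_zero.2 l1.symm)] at this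
    rw [this, zero_pow (by omega)] at hw
    exact zero_ne_one hw
  have h3 : ∀ w, Φ.eval w ^ (2 * k) = 1 → ∃ η, η ^ 2 = th w (Φ ^ (2 * k + 1) - C l * Φ) ∧
      Rep η 0 (ρ (Φ.eval w)) := fun w hw => by
    refine Rep.sqrt h2 (y0 w hw) ?_
    have := rep_fin w (Φ ^ (2 * k + 1) - C l * Φ)
    rwa [eval_sub, eval_mul, eval_pow, eval_C, pow_succ (Φ.eval w), hw, ← sub_mul, ← hρ,
      ← add_zero (0 : ℤ)]
      at this
  choose! η h3 using h3
  refine ⟨⟨_, _, η, fun w => ρ (Φ.eval w), h2, ?_, fun w hw => (h3 w ((hS w).1 hw)).1,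
    fun w hw => y0 w ((hS w).1 hw), fun w hw => (h3 w ((hS w).1 hw)).2⟩, ρ,
    rfl, hS, fun _ => rfl, hρ, l0, l1, k0, d0, frob, tr, b0⟩
  rw [natDegree_sub_eq_left_of_natDegree_lt, natDegree_pow]
  · exact Odd.mul ⟨k, rfl⟩ hd
  · rw [natDegree_pow]
    exact (natDegree_C_mul_le _ _).trans_lt (by nlinarith)

end H16v
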