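import Pool.Agent.MP_070445_nt.V16.Loc

open Polynomial Finset HahnSeries

namespace H16v

/-- Square roots of `E` at the points of a finite set. -/
structure Dat (K : Type) [Field K] where
  S : Finset K
  E : K[X]
  η : K → HahnSeries ℤ K
  y : K → K
  two : (2 : K) ≠ 0
  odd : Odd E.natDegree
  sq : ∀ a ∈ S, η a ^ 2 = th a E
  y0 : ∀ a ∈ S, y a ≠ 0
  fin : ∀ a ∈ S, Rep (η a) 0 (y a)

variable {K : Type} [Field K] (A : Dat K)

/-- Expansion of `t + u √E`. -/
noncomputable def Dat.val (a : K) (t u : K[X]) : HahnSeries ℤ K := th a t + th a u * A.η a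

/-- Difference of the orders at the two conjugate places. -/
noncomputable def Dat.del (a : K) (t u : K[X]) : ℤ :=
  (A.val a t u).order - (A.val a t (-u)).order

/-- All roots lie in the finite set. -/
def Dat.SU (P : K[X]) : Prop := P ≠ 0 ∧ ∀ z, P.IsRoot z → z ∈ A.S

theorem Dat.val_conj {a : K} (ha : a ∈ A.S) (t u : K[X]) :
    A.val a t u * A.val a t (-u) = th a (t ^ 2 - A.E * u ^ 2) := by
  simp only [Dat.val, map_neg, map_sub, map_mul, map_pow, ← A.sq a ha]; ring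

theorem Dat.val_mul {a : K} (ha : a ∈ A.S) (t u t' u' : K[X]) :
    A.val a (t * t' + A.E * u * u') (t * u' + t' * u) = A.val a t u * A.val a t' u' := by
  simp only [Dat.val, map_add, map_mul, ← A.sq a ha]; ring

theorem Dat.val_ne {a : K} (ha : a ∈ A.S) {t u : K[X]} (h : t ^ 2 - A.E * u ^ 2 ≠ 0) :
    A.val a t u ≠ 0 ∧ A.val a t (-u) ≠ 0 :=
  mul_ne_zero_iff.1 (by rw [A.val_conj ha]; exact th_ne _ h)

theorem Dat.ord_sum {a : K} (ha : a ∈ A.S) {t u : K[X]} (h : t ^ 2 - A.E * u ^ 2 ≠ 0) :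
    (A.val a t u).order + (A.val a t (-u)).order = od a (t ^ 2 - A.E * u ^ 2) := by
  rw [← order_mul (A.val_ne ha h).1 (A.val_ne ha h).2, A.val_conj ha, od]

theorem Dat.SU.mul {A : Dat K} {P Q : K[X]} (h : A.SU P) (h' : A.SU Q) : A.SU (P * Q) :=
  ⟨mul_ne_zero h.1 h'.1, fun z hz => (root_mul.1 hz).elim (h.2 z) (h'.2 z)⟩

theorem Dat.SU.of_mul {A : Dat K} {P Q : K[X]} (h : A.SU (P * Q)) : A.SU Q :=
  ⟨right_ne_zero_of_mul h.1, fun z hz => h.2 z (root_mul.2 (Or.inr hz))⟩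

theorem Dat.SU.pow {A : Dat K} {P : K[X]} (h : A.SU P) (n : ℕ) : A.SU (P ^ n) :=
  ⟨pow_ne_zero n h.1, fun z hz => h.2 z (by
    rw [IsRoot, eval_pow] at hz; exact eq_zero_of_pow_eq_zero hz)⟩

/-- The lattice of relations. -/
noncomputable def Dat.Lam : AddSubgroup (K → ℤ) where
  carrier := {v | ∃ t u, A.SU (t ^ 2 - A.E * u ^ 2) ∧ ∀ a ∈ A.S, A.del a t u = v a}
  zero_mem' := ⟨1, 0, ⟨by simp, fun z hz => by simp at hz⟩, fun s _ => by simp [Dat.del]⟩
  add_mem' := by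
    rintro v w ⟨t, u, h1, h2⟩ ⟨t', u', h3, h4⟩
    refine ⟨t * t' + A.E * u * u', t * u' + t' * u, ?_, fun s hs => ?_⟩
    · have e0 : (t * t' + A.E * u * u') ^ 2 - A.E * (t * u' + t' * u) ^ 2 =
          (t ^ 2 - A.E * u ^ 2) * (t' ^ 2 - A.E * u' ^ 2) := by ring
      exact e0 ▸ h1.mul h3
    · have e1 := A.val_mul hs t (-u) t' (-u')
      have e2 : t * t' + A.E * -u * -u' = t * t' + A.E * u * u' := by ring
      have e3 : t * -u' + t' * -u = -(t * u' + t' * u) := by ring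
      rw [e2, e3] at e1
      have e4 := h2 s hs
      have e5 := h4 s hs
      rw [Dat.del] at e4 e5 ⊢
      rw [e1, A.val_mul hs, order_mul (A.val_ne hs h1.1).1 (A.val_ne hs h3.1).1,
        order_mul (A.val_ne hs h1.1).2 (A.val_ne hs h3.1).2, Pi.add_apply]
      omega
  neg_mem' := by
    rintro v ⟨t, u, h1, h2⟩
    refine ⟨t, -u, by rwa [neg_sq], fun s hs => ?_⟩
    have e4 := h2 s hs
    rw [Dat.del] at e4 ⊢
    rw [neg_neg, Pi.neg_apply]
    omega

theorem Dat.congr {v w : K → ℤ} (h : v ∈ A.Lam) (h' : ∀ a ∈ A.S, v a = w a) : w ∈ A.Lam := by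
  obtain ⟨t, u, h1, h2⟩ := h
  exact ⟨t, u, h1, fun a ha => (h2 a ha).trans (h' a ha)⟩

theorem Dat.rep_val {a : K} (ha : a ∈ A.S) (t u : K[X]) :
    Rep (A.val a t u) 0 (t.eval a + u.eval a * A.y a) := by
  have := (rep_fin a u).mul (A.fin a ha)
  rw [add_zero] at this
  exact (rep_fin a t).add this

open Classical in
theorem Dat.del_sgn {a : K} (ha : a ∈ A.S) {t u : K[X]} (h : t ^ 2 - A.E * u ^ 2 ≠ 0)
    (h1 : ¬(t.IsRoot a ∧ u.IsRoot a)) : A.del a t u =
      (if t.eval a - u.eval a * A.y a = 0 then -1 else 1) * od a (t ^ 2 - A.E * u ^ 2) := by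
  have e2 := A.ord_sum ha h
  rw [Dat.del]
  split_ifs with e0
  · have e1 := ((A.rep_val ha t u).eq fun e1 => h1 ⟨mul_left_cancel₀ A.two
      (by linear_combination e0 + e1), mul_left_cancel₀ (mul_ne_zero A.two (A.y0 a ha))
      (by linear_combination e1 - e0)⟩).2
    omega
  · have e1 := ((A.rep_val ha t (-u)).eq (by rwa [eval_neg, neg_mul, ← sub_eq_add_neg])).2
    omega

variable [IsAlgClosed K]

theorem Dat.sum_od (n : ℕ) : ∀ P : K[X], P.natDegree = n → A.SU P → ∑ a ∈ A.S, od a P = n := by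
  classical
  induction n with
  | zero =>
    intro P h1 h2
    refine sum_eq_zero fun a _ => od_zero ?_
    rw [eq_C_of_natDegree_eq_zero h1, eval_C]
    exact fun h => h2.1 (by rw [eq_C_of_natDegree_eq_zero h1, h, C_0])
  | succ n ih =>
    intro P h1 h2
    obtain ⟨z, hz⟩ := IsAlgClosed.exists_root P (natDegree_pos_iff_degree_pos.1 (by omega)).ne'
    have hb := h2.2 z hz
    obtain ⟨Q, rfl⟩ := dvd_iff_isRoot.2 hz
    rw [natDegree_mul (X_sub_C_ne_zero _) h2.of_mul.1, natDegree_X_sub_C] at h1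
    simp only [od_mul _ h2.1, sum_add_distrib, ih Q (by omega) h2.of_mul, od_lin]
    simp [add_comm, hb]

theorem Dat.gon (n : ℕ) : ∀ t u : K[X], (t ^ 2 - A.E * u ^ 2).natDegree = n →
    A.SU (t ^ 2 - A.E * u ^ 2) →
      (∀ a ∈ A.S, A.del a t u = 0) ∨ (A.E.natDegree : ℤ) ≤ ∑ a ∈ A.S, |A.del a t u| := by
  induction n using Nat.strong_induction_on with
  | _ n ih =>
  intro t u h1 h2
  by_cases hp : ∃ a, t.IsRoot a ∧ u.IsRoot a
  · obtain ⟨a, ht, hu⟩ := hp
    obtain ⟨t, rfl⟩ := dvd_iff_isRoot.2 ht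
    obtain ⟨u, rfl⟩ := dvd_iff_isRoot.2 hu
    have e1 : ((X - Polynomial.C a) * t) ^ 2 - A.E * ((X - Polynomial.C a) * u) ^ 2 =
        (X - Polynomial.C a) ^ 2 * (t ^ 2 - A.E * u ^ 2) := by ring
    rw [e1] at h1 h2
    rw [natDegree_mul (pow_ne_zero _ (X_sub_C_ne_zero _)) h2.of_mul.1, natDegree_pow,
      natDegree_X_sub_C] at h1
    have e2 : ∀ s ∈ A.S, A.del s ((X - Polynomial.C a) * t) ((X - Polynomial.C a) * u) =
        A.del s t u := fun s hs => by
      have e3 : ∀ u', A.val s ((X - Polynomial.C a) * t) ((X - Polynomial.C a) * u') =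
          th s (X - Polynomial.C a) * A.val s t u' := fun u' => by
        simp only [Dat.val, map_mul]; ring
      have e4 := th_ne s (X_sub_C_ne_zero a)
      rw [Dat.del, Dat.del, ← mul_neg, e3, e3, order_mul e4 (A.val_ne hs h2.of_mul.1).1,
        order_mul e4 (A.val_ne hs h2.of_mul.1).2]
      omega
    rw [sum_congr rfl fun s hs => congrArg abs (e2 s hs)]
    exact (ih _ (by omega) t u rfl h2.of_mul).imp_left fun h s hs => (e2 s hs).trans (h s hs)
  by_cases hu : u = 0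
  · left; intro s _; simp [Dat.del, hu]
  right
  have e1 := A.sum_od n _ h1 h2
  have e2 : ∑ a ∈ A.S, od a (t ^ 2 - A.E * u ^ 2) ≤ ∑ a ∈ A.S, |A.del a t u| :=
    sum_le_sum fun a ha => by
      rw [A.del_sgn ha h2.1 fun h => hp ⟨a, h⟩, abs_mul]
      split_ifs <;> simpa using le_abs_self _
  obtain ⟨m, hm⟩ := A.odd
  have e3 : (A.E * u ^ 2).natDegree = A.E.natDegree + 2 * u.natDegree := by
    rw [natDegree_mul (by rintro h; rw [h] at hm; simp at hm) (pow_ne_zero 2 hu), natDegree_pow]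
  have e4 : (t ^ 2).natDegree = 2 * t.natDegree := natDegree_pow _ _
  rcases lt_or_gt_of_ne (show (t ^ 2).natDegree ≠ (A.E * u ^ 2).natDegree by omega) with h | h
  · rw [natDegree_sub_eq_right_of_natDegree_lt h] at h1; omega
  · rw [natDegree_sub_eq_left_of_natDegree_lt h] at h1; omega

theorem Dat.lam_zero {v : K → ℤ} (hv : v ∈ A.Lam) (h : ∑ a ∈ A.S, |v a| < A.E.natDegree) :
    ∀ a ∈ A.S, v a = 0 := by
  obtain ⟨t, u, h1, h2⟩ := hv
  rcases A.gon _ t u rfl h1 with h3 | h3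
  · exact fun a ha => (h2 a ha).symm.trans (h3 a ha)
  · rw [sum_congr rfl fun s hs => congrArg abs (h2 s hs)] at h3
    omega

end H16v
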