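import Pool.Agent.MP_070445_nt.V16.Core

open Polynomial Finset

namespace H16v

variable {R S : Type} [CommRing R] [CommRing S] (Q : ℕ)

/-- The additive polynomial attached to a polynomial. -/
noncomputable def lin (H : R[X]) : R[X] := H.sum fun i a => C a * X ^ Q ^ i

theorem lin_mono (i : ℕ) (a : R) : lin Q (monomial i a) = C a * X ^ Q ^ i :=
  sum_monomial_index _ _ (by simp)

theorem lin_add (G H : R[X]) : lin Q (G + H) = lin Q G + lin Q H :=
  sum_add_index _ _ _ (by simp) (by simp [add_mul])

theorem lin_map (φ : R →+* S) (H : R[X]) : (lin Q H).map φ = lin Q (H.map φ) := by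
  induction H using Polynomial.induction_on' with
  | add p q hp hq => simp [lin_add, hp, hq]
  | monomial i a => simp [lin_mono]

theorem lin_mul (c : R) (H : R[X]) :
    lin Q ((X - C c) * H) = expand R Q (lin Q H) - C c * lin Q H := by
  induction H using Polynomial.induction_on' with
  | add p q hp hq => rw [mul_add, lin_add, lin_add, hp, hq, map_add]; ring
  | monomial i a =>
    rw [sub_eq_add_neg, add_mul, X_mul_monomial, ← C_neg, C_mul_monomial, lin_add, lin_mono,
      lin_mono, lin_mono, C_mul, map_mul (expand R Q), expand_C, map_pow, expand_X, ← pow_mul,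
      ← pow_succ', C_neg]
    ring

theorem lin_deriv (hQ : (Q : R) = 0) (H : R[X]) : derivative (lin Q H) = C (H.coeff 0) := by
  induction H using Polynomial.induction_on' with
  | add p q hp hq => simp [lin_add, hp, hq]
  | monomial i a =>
    rw [lin_mono, derivative_C_mul_X_pow, coeff_monomial]
    cases i <;> simp [hQ]

theorem lin_zero (hQ : Q ≠ 0) (H : R[X]) : (lin Q H).eval 0 = 0 := by
  induction H using Polynomial.induction_on' with
  | add p q hp hq => simp [lin_add, hp, hq]
  | monomial i a => simp [lin_mono, hQ]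

theorem lin_comp (p f : ℕ) [Fact p.Prime] [CharP R p] (v : R) (H : R[X]) :
    (lin (p ^ f) H).comp (X - C v) = lin (p ^ f) H - C ((lin (p ^ f) H).eval v) := by
  induction H using Polynomial.induction_on' with
  | add p q hp hq => rw [lin_add, add_comp, hp, hq, eval_add, C_add]; ring
  | monomial i a => simp [lin_mono, ← pow_mul, sub_pow_char_pow, mul_sub]

theorem lin_deg [Nontrivial R] (hQ : 1 < Q) {H : R[X]} (h : H.Monic) :
    (lin Q H).Monic ∧ (lin Q H).natDegree = Q ^ H.natDegree := by
  obtain ⟨h1, h2⟩ := induction_with_natDegree_le (fun P => (lin Q P).natDegree ≤ Q ^ H.natDegree ∧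
      (lin Q P).coeff (Q ^ H.natDegree) = P.coeff H.natDegree) H.natDegree (by simp [lin])
    (fun n r _ hn => by
      rw [C_mul_X_pow_eq_monomial, lin_mono, coeff_C_mul_X_pow, coeff_monomial]
      exact ⟨(natDegree_C_mul_X_pow_le _ _).trans (Nat.pow_le_pow_right hQ.le hn),
        by simp [(Nat.pow_right_injective hQ).eq_iff, eq_comm]⟩)
    (fun f g _ _ hf hg => by
      rw [lin_add, coeff_add, coeff_add, hf.2, hg.2]
      exact ⟨natDegree_add_le_of_degree_le hf.1 hg.1, rfl⟩) H le_rfl
  rw [h.coeff_natDegree] at h2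
  exact ⟨monic_of_natDegree_le_of_coeff_eq_one _ h1 h2,
    natDegree_eq_of_le_of_coeff_ne_zero h1 (h2 ▸ one_ne_zero)⟩

variable {k : Type} [Field k]

theorem refl_facts {E : k[X]} (h1 : E.Monic) (h2 : E.eval 0 = 1) (h3 : Squarefree E) :
    (reflect (E.natDegree + 1) E).Monic ∧ (reflect (E.natDegree + 1) E).natDegree = E.natDegree + 1 ∧
      Squarefree (reflect (E.natDegree + 1) E) := by
  have a1 : (reflect (E.natDegree + 1) E).natDegree ≤ E.natDegree + 1 :=
    natDegree_reflect_le.trans (by omega)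
  have a2 : (reflect (E.natDegree + 1) E).coeff (E.natDegree + 1) = 1 := by
    rw [coeff_reflect, revAt_le le_rfl, Nat.sub_self, coeff_zero_eq_eval_zero, h2]
  have a3 := natDegree_eq_of_le_of_coeff_ne_zero a1 (a2 ▸ one_ne_zero)
  refine ⟨monic_of_natDegree_le_of_coeff_eq_one _ a1 a2, a3, fun g ⟨q, hq⟩ => ?_⟩
  have a4 := congrArg reverse hq
  rw [reverse_mul_of_domain, reverse_mul_of_domain, reverse, a3, reflect_reflect] at a4
  have a5 := natDegree_eq_zero_of_isUnit (h3 _ ⟨_, a4⟩)
  have a6 : g.coeff 0 ≠ 0 := fun h => by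
    obtain ⟨r, rfl⟩ := X_dvd_iff.2 h
    have := X_pow_dvd_iff.1 (⟨r * r * q, by rw [hq]; ring⟩ : X ^ 2 ∣ reflect (E.natDegree + 1) E) 1
      one_lt_two
    rw [coeff_reflect, revAt_le (by omega), Nat.add_sub_cancel, h1.coeff_natDegree] at this
    exact one_ne_zero this
  rw [reverse_natDegree, natTrailingDegree_eq_zero.2 (Or.inr a6), Nat.sub_zero] at a5
  rw [eq_C_of_natDegree_eq_zero a5]
  exact isUnit_C.2 (IsUnit.mk0 _ a6)

theorem refl_unit {E D t u : k[X]} {c : k} {h : ℕ} (h0 : 0 < h) (h1 : D.Monic)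
    (h2 : D.natDegree = h + h) (h3 : reflect (h + h) D = E) (hu : u ≠ 0)
    (h4 : t ^ 2 - D * u ^ 2 = C c) : 0 < t.natDegree ∧ (reflect t.natDegree t).eval 0 ≠ 0 ∧
      reflect t.natDegree t ^ 2 - E * reflect u.natDegree u ^ 2 =
        C c * X ^ (t.natDegree + t.natDegree) := by
  have e1 : t.natDegree = h + u.natDegree := by
    have := congrArg natDegree (sub_eq_iff_eq_add'.1 h4)
    rw [natDegree_add_C, h1.natDegree_mul' (pow_ne_zero 2 hu), natDegree_pow, natDegree_pow] at this
    omega
  refine ⟨by omega, ?_, ?_⟩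
  · rw [← coeff_zero_eq_eval_zero, coeff_reflect, revAt_zero]
    exact leadingCoeff_ne_zero.2 (by rintro rfl; rw [natDegree_zero] at e1; omega)
  · rw [← reflect_C, ← h4, reflect_sub, sq t, reflect_mul _ _ le_rfl le_rfl, sq, sq u,
      show t.natDegree + t.natDegree = h + h + (u.natDegree + u.natDegree) by omega,
      reflect_mul _ _ h2.le natDegree_mul_le, reflect_mul _ _ le_rfl le_rfl, h3, sq]

end H16v
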