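import Mathlib

open Polynomial Finset HahnSeries

namespace H16v

variable {K : Type} [Field K]

/-- `x` has a pole of order at most `d` with coefficient `c` there. -/
def Rep (x : HahnSeries ℤ K) (d : ℤ) (c : K) : Prop :=
  ∃ φ : PowerSeries K, x = single (-d) 1 * ofPowerSeries ℤ K φ ∧ PowerSeries.constantCoeff φ = c

theorem Rep.mul {x y : HahnSeries ℤ K} {d e : ℤ} {a b : K} (h : Rep x d a) (h' : Rep y e b) :
    Rep (x * y) (d + e) (a * b) := by
  obtain ⟨φ, rfl, rfl⟩ := h
  obtain ⟨ψ, rfl, rfl⟩ := h'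
  refine ⟨φ * ψ, ?_, by simp⟩
  have : (single (-(d + e)) 1 : HahnSeries ℤ K) = single (-d) 1 * single (-e) 1 := by
    rw [single_mul_single, mul_one, neg_add]
  rw [this, map_mul]; ring

theorem Rep.add {x y : HahnSeries ℤ K} {d : ℤ} {a b : K} (h : Rep x d a) (h' : Rep y d b) :
    Rep (x + y) d (a + b) := by
  obtain ⟨φ, rfl, rfl⟩ := h
  obtain ⟨ψ, rfl, rfl⟩ := h'
  exact ⟨φ + ψ, by rw [map_add, mul_add], by simp⟩

theorem rep_C (c : K) : Rep (HahnSeries.C c : HahnSeries ℤ K) 0 c :=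
  ⟨PowerSeries.C c, by rw [ofPowerSeries_C, neg_zero, single_zero_one, one_mul], by simp⟩

theorem rep_T (d : ℤ) : Rep (single (-d) 1 : HahnSeries ℤ K) d 1 := ⟨1, by simp, by simp⟩

theorem Rep.up {x : HahnSeries ℤ K} {d e : ℤ} {a : K} (h : Rep x d a) (hd : d < e) :
    Rep x e 0 := by
  obtain ⟨φ, rfl, rfl⟩ := h
  obtain ⟨n, rfl⟩ := Int.le.dest hd
  refine ⟨PowerSeries.X ^ (n + 1) * φ, ?_, by simp⟩
  rw [map_mul, ofPowerSeries_X_pow, ← mul_assoc, single_mul_single, mul_one]
  congr 2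
  push_cast; ring_nf

theorem Rep.le {x : HahnSeries ℤ K} {d : ℤ} {a : K} (h : Rep x d a) (hx : x ≠ 0) :
    -d ≤ x.order := by
  obtain ⟨φ, rfl, rfl⟩ := h
  have h2 := right_ne_zero_of_mul hx
  rw [order_mul (left_ne_zero_of_mul hx) h2, order_single one_ne_zero, le_add_iff_nonneg_right,
    le_order_iff_forall h2]
  intro j hj
  rw [PowerSeries.coeff_coe, if_pos hj]

theorem Rep.eq {x : HahnSeries ℤ K} {d : ℤ} {a : K} (h : Rep x d a) (ha : a ≠ 0) :
    x ≠ 0 ∧ x.order = -d := by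
  have h0 := h
  obtain ⟨φ, rfl, rfl⟩ := h
  have h1 : (ofPowerSeries ℤ K φ).coeff 0 ≠ 0 := by
    rw [PowerSeries.coeff_coe, if_neg (lt_irrefl _)]
    simpa using ha
  have h2 : ofPowerSeries ℤ K φ ≠ 0 := fun h => h1 (by rw [h]; simp)
  have h3 : (single (-d) 1 : HahnSeries ℤ K) ≠ 0 := single_ne_zero one_ne_zero
  refine ⟨mul_ne_zero h3 h2, le_antisymm ?_ (h0.le (mul_ne_zero h3 h2))⟩
  rw [order_mul h3 h2, order_single one_ne_zero, add_le_iff_nonpos_right]
  exact order_le_of_coeff_ne_zero h1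

theorem Rep.sqrt {x : HahnSeries ℤ K} {d : ℤ} {y : K} (h2 : (2 : K) ≠ 0) (hy : y ≠ 0)
    (h : Rep x (d + d) (y ^ 2)) : ∃ η, η ^ 2 = x ∧ Rep η d y := by
  obtain ⟨φ, rfl, hφ⟩ := h
  obtain ⟨ψ, h3, h4⟩ := HenselianRing.is_henselian (I := Ideal.span {(PowerSeries.X : PowerSeries K)})
    (X ^ 2 - Polynomial.C φ) (monic_X_pow_sub_C _ two_ne_zero) (PowerSeries.C y)
    (by rw [Ideal.mem_span_singleton, PowerSeries.X_dvd_iff]; simp [hφ])
    (by
      refine IsUnit.map _ ?_
      rw [PowerSeries.isUnit_iff_constantCoeff]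
      simp only [derivative_sub, derivative_X_pow, derivative_C, sub_zero, eval_mul,
        eval_pow, eval_X, map_mul, map_pow, map_natCast, PowerSeries.constantCoeff_C, eval_natCast]
      exact IsUnit.mk0 _ (mul_ne_zero (by exact_mod_cast h2) (pow_ne_zero _ hy)))
  rw [Ideal.mem_span_singleton, PowerSeries.X_dvd_iff, map_sub, PowerSeries.constantCoeff_C,
    sub_eq_zero] at h4
  have h5 : ψ ^ 2 = φ := by simpa [sub_eq_zero] using h3
  refine ⟨_, ?_, ψ, rfl, h4⟩
  rw [mul_pow, ← map_pow (ofPowerSeries ℤ K), h5, sq, single_mul_single, mul_one, neg_add]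

/-- Expansion of a polynomial at a point. -/
noncomputable def th (a : K) : K[X] →+* HahnSeries ℤ K :=
  eval₂RingHom HahnSeries.C (HahnSeries.C a + single 1 1)

theorem th_C (z : K) (c : K) : th z (Polynomial.C c) = HahnSeries.C c := by simp [th]

theorem rep_fin (a : K) (P : K[X]) : Rep (th a P) 0 (P.eval a) := by
  have hX : Rep (th a X) 0 a := by
    have := (rep_C a).add ((rep_T (K := K) (-1)).up (e := 0) (by omega))
    simpa [th] using this
  induction P using Polynomial.induction_on with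
  | C c => rw [th_C, eval_C]; exact rep_C c
  | add p q hp hq => rw [map_add, eval_add]; exact hp.add hq
  | monomial n c h =>
    have := h.mul hX
    rw [pow_succ, ← mul_assoc, map_mul, eval_mul, eval_X]
    simpa using this

theorem th_lin (a : K) : th a (X - Polynomial.C a) = single 1 1 := by
  rw [map_sub, th_C]; simp [th]

theorem th_ne (a : K) {P : K[X]} (h : P ≠ 0) : th a P ≠ 0 := by
  obtain ⟨q, h1, h2⟩ := exists_eq_pow_rootMultiplicity_mul_and_not_dvd P h a
  rw [h1, map_mul, map_pow, th_lin]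
  exact mul_ne_zero (pow_ne_zero _ (single_ne_zero one_ne_zero))
    ((rep_fin a q).eq fun h => h2 (dvd_iff_isRoot.2 h)).1

/-- Order of a polynomial at a point. -/
noncomputable def od (z : K) (P : K[X]) : ℤ := (th z P).order

theorem od_mul (z : K) {P Q : K[X]} (h : P * Q ≠ 0) : od z (P * Q) = od z P + od z Q := by
  rw [od, map_mul, order_mul (th_ne z (left_ne_zero_of_mul h)) (th_ne z (right_ne_zero_of_mul h))]
  rfl

theorem od_pow (z : K) (P : K[X]) (n : ℕ) : od z (P ^ n) = n * od z P := by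
  rw [od, map_pow, order_pow]; simp [od]

theorem od_zero {a : K} {P : K[X]} (h : P.eval a ≠ 0) : od a P = 0 := by
  simpa [od] using ((rep_fin a P).eq h).2

open Classical in
theorem od_lin (a b : K) : od a (X - Polynomial.C b) = if a = b then 1 else 0 := by
  split_ifs with h
  · rw [h, od, th_lin, order_single one_ne_zero]
  · exact od_zero (by simpa [sub_eq_zero] using h)

theorem od_nonneg (a : K) {P : K[X]} (h : P ≠ 0) : 0 ≤ od a P := by
  simpa [od] using (rep_fin a P).le (th_ne a h)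

theorem od_pos {a : K} {P : K[X]} (h : P ≠ 0) (ha : P.eval a = 0) : 0 < od a P := by
  obtain ⟨Q, rfl⟩ := dvd_iff_isRoot.2 ha
  have := od_nonneg a (right_ne_zero_of_mul h)
  rw [od_mul _ h, od_lin, if_pos rfl]
  omega

end H16v
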