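import Pool.Agent.MP_070445_nt.V16.Lin

open Polynomial Finset

namespace H16v

theorem key (k : Type) [Field k] (p f κ : ℕ) [Fact p.Prime] [CharP k p] (hp : p ≠ 2)
    (hκ : 2 * κ + 1 = p ^ f) (k0 : 0 < κ) : ∃ D : k[X], D.Monic ∧ Squarefree D ∧ Even D.natDegree ∧
      p ^ f ≤ D.natDegree ∧ D.natDegree ≤ (p ^ f) ^ f + 1 ∧ ∀ (t u : k[X]) (a : k), a ≠ 0 → u ≠ 0 →
        t ^ 2 - D * u ^ 2 = C a → 2 ^ κ ≤ t.natDegree + t.natDegree := by
  classical
  have hf : f ≠ 0 := by rintro rfl; rw [pow_zero] at hκ; omega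
  let _ : Fintype (GaloisField p f) := Fintype.ofFinite _
  let _ : Algebra (ZMod p) (AlgebraicClosure k) := ZMod.algebra _ p
  have hF : Fintype.card (GaloisField p f) = p ^ f := by
    rw [← Nat.card_eq_fintype_card, GaloisField.card p f hf]
  let ι : GaloisField p f →+* AlgebraicClosure k :=
    (IsAlgClosed.lift (R := ZMod p) (S := GaloisField p f)).toRingHom
  obtain ⟨g, hg⟩ := IsCyclic.exists_ofOrder_eq_natCard (α := (GaloisField p f)ˣ)
  rw [Nat.card_units, Nat.card_eq_fintype_card, hF, ← hκ, Nat.add_sub_cancel, ← orderOf_units] at hg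
  have g0 := g.ne_zero
  generalize (g : GaloisField p f) = l at hg g0
  have l1 : l ≠ 1 := by rintro rfl; rw [orderOf_one] at hg; omega
  have fix : ∀ a : GaloisField p f, a ≠ 0 → a ^ (2 * κ) = 1 := fun a ha => by
    have := FiniteField.pow_card_sub_one_eq_one a ha
    rwa [hF, ← hκ, Nat.add_sub_cancel] at this
  have hi : IsIntegral (ZMod p) l := Algebra.IsIntegral.isIntegral l
  have m1 := minpoly.monic hi
  have m2 := minpoly.natDegree_le (A := ZMod p) l
  rw [GaloisField.finrank p hf] at m2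
  have m3 := minpoly.coeff_zero_ne_zero hi g0
  obtain ⟨H, hH⟩ := dvd_iff_isRoot.2 (show ((minpoly (ZMod p) l).map (algebraMap _ _)).IsRoot l by
    rw [IsRoot, eval_map_algebraMap, minpoly.aeval])
  generalize minpoly (ZMod p) l = m at m1 m2 m3 hH
  have H1 : H.Monic := (monic_X_sub_C l).of_mul_monic_left (hH ▸ m1.map _)
  have m4 : m.natDegree = H.natDegree + 1 := by
    rw [← natDegree_map (algebraMap _ (GaloisField p f)), hH, (monic_X_sub_C l).natDegree_mul H1,
      natDegree_X_sub_C, add_comm]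
  let φ := ZMod.castHom (dvd_refl p) k
  obtain ⟨e1, e2⟩ := lin_deg (p ^ f) (by omega) (m1.map φ)
  rw [natDegree_map] at e2
  have q0 : p ^ f ≤ (p ^ f) ^ m.natDegree := Nat.le_self_pow (by omega) _
  obtain ⟨h, hh⟩ : Odd ((p ^ f) ^ m.natDegree) := Odd.pow ⟨κ, hκ.symm⟩
  obtain ⟨E, hE⟩ : ∃ E, E = lin (p ^ f) (m.map φ) + C 1 := ⟨_, rfl⟩
  have e3 : E.natDegree + 1 = h + 1 + (h + 1) := by rw [hE, natDegree_add_C, e2]; omega
  have e4 : E.Monic := hE ▸ e1.add_of_left (degree_C_le.trans_lt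
    (natDegree_pos_iff_degree_pos.1 (by omega)))
  have e5 : E.Separable := by
    rw [separable_def, hE, derivative_add, derivative_C, add_zero, lin_deriv _ (by simp [hf])]
    refine ⟨0, C ((m.map φ).coeff 0)⁻¹, ?_⟩
    rw [zero_mul, zero_add, ← C_mul, inv_mul_cancel₀ (by rwa [coeff_map, _root_.map_ne_zero]), C_1]
  obtain ⟨d1, d2, d3⟩ := refl_facts e4 (by simp [hE, lin_zero _ (show p ^ f ≠ 0 by omega)])
    e5.squarefree
  have q1 : (p ^ f) ^ m.natDegree ≤ (p ^ f) ^ f := Nat.pow_le_pow_right (by omega) m2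
  refine ⟨_, d1, d3, ⟨h + 1, d2.trans e3⟩, by omega, by omega, fun t u a ha hu h1 => ?_⟩
  obtain ⟨r1, r2, r3⟩ := refl_unit (E := E) h.succ_pos d1 (d2.trans e3)
    (by rw [← e3, reflect_reflect]) hu h1
  have b0 : (1 - l)⁻¹ ≠ 0 := inv_ne_zero (sub_ne_zero.2 l1.symm)
  obtain ⟨Φ, hΦ⟩ : ∃ Φ, Φ = lin (p ^ f) (H.map ι) + C (ι (1 - l)⁻¹) := ⟨_, rfl⟩
  have f0 : Φ.eval 0 = ι (1 - l)⁻¹ := by simp [hΦ, lin_zero _ (show p ^ f ≠ 0 by omega)]
  obtain ⟨A, ρ, P⟩ := exists_par (Φ := Φ) (l := ι l) (k := κ)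
    (Ring.two_ne_zero (by rwa [ringChar.eq _ p])) (by rw [← map_pow, fix l g0, map_one])
    (fun h => l1 (ι.injective (by rw [h, map_one]))) k0
    (by rw [hΦ, natDegree_add_C, (lin_deg _ (by omega) (H1.map ι)).2]; exact Odd.pow ⟨κ, hκ.symm⟩)
    (fun x y => by rw [hκ, sub_pow_char_pow]) (fun v hv => by
      rw [f0, hΦ, eval_add, eval_C, add_eq_right] at hv
      rw [hΦ, add_comp, lin_comp, hv, C_comp, C_0, sub_zero])
    (by rw [f0, ← map_pow, fix _ b0, map_one])
  have f1 : E.map (algebraMap k (AlgebraicClosure k)) = A.E := by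
    have a1 := congrArg (fun P => (lin (p ^ f) P).map ι) hH
    simp only [lin_mul] at a1
    rw [← hF, FiniteField.expand_card, hF, lin_map, Polynomial.map_map, Polynomial.map_sub,
      Polynomial.map_mul, Polynomial.map_pow, map_C, lin_map] at a1
    rw [hE, Polynomial.map_add, lin_map, Polynomial.map_map, Subsingleton.elim (RingHom.comp _ φ)
      (ι.comp (algebraMap _ _)), a1, P.E, hΦ, hκ, add_pow_char_pow, ← C_pow, ← map_pow, ← hF,
      FiniteField.pow_card, map_C, mul_add, ← C_mul, ← map_mul, map_one,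
      show l * (1 - l)⁻¹ = (1 - l)⁻¹ - 1 by field_simp [sub_ne_zero.2 l1.symm]; ring, map_sub,
      map_one ι, C_sub, C_1]
    ring
  have f2 := congrArg (Polynomial.map (algebraMap k (AlgebraicClosure k))) r3
  simp only [Polynomial.map_sub, Polynomial.map_mul, Polynomial.map_pow, map_C, map_X, f1] at f2
  refine P.main (fun i hi j hj h => ?_) (by omega) (P.unit (by simpa using ha) (by
    rwa [← coeff_zero_eq_eval_zero, coeff_map, _root_.map_ne_zero, coeff_zero_eq_eval_zero]) f2)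
  rw [← map_pow, ← map_pow] at h
  have := pow_injOn_Iio_orderOf (x := l) (by rw [hg, Set.mem_Iio]; omega)
    (by rw [hg, Set.mem_Iio]; omega) (ι.injective h)
  omega

theorem real_part (p f κ n R : ℕ) (hp : 3 ≤ p) (hf : 100 ≤ f) (hκ : 2 * κ + 1 = p ^ f) (h0 : 0 < n)
    (h1 : n ≤ (p ^ f) ^ f + 1) (h2 : 2 ^ κ ≤ R + R) :
    Real.exp (Real.exp √(Real.log n)) ≤ R := by
  have p3 : (3 : ℝ) ≤ p := by exact_mod_cast hp
  have f0 : (100 : ℝ) ≤ f := by exact_mod_cast hf
  have l3 : 1.09 ≤ Real.log p :=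
    (le_trans (by norm_num) Real.log_three_gt_d9.le).trans (Real.log_le_log (by norm_num) p3)
  have l2 := Real.log_two_gt_d9
  have a0 : 100 < 2 * κ + 1 := hκ ▸ lt_of_le_of_lt hf (Nat.lt_pow_self (by omega))
  have a1 : Real.log n ≤ (f * f + 1) * Real.log p := by
    have : n ≤ p ^ (f * f + 1) := by
      have := Nat.one_le_pow (f * f) p (by omega)
      rw [← pow_mul] at h1
      rw [pow_succ]; nlinarith
    refine (Real.log_le_log (by exact_mod_cast h0) (show (n : ℝ) ≤ p ^ (f * f + 1) by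
      exact_mod_cast this)).trans ?_
    rw [Real.log_pow]; push_cast; rfl
  have a2 : √(Real.log n) ≤ f * Real.log p - 2 := by
    refine Real.sqrt_le_iff.2 ⟨by nlinarith, a1.trans ?_⟩
    have b1 : 0 ≤ (f : ℝ) * f * Real.log p * (Real.log p - 1.09) :=
      mul_nonneg (by positivity) (by linarith)
    have b2 : 0 ≤ f * Real.log p * (f - 100) := mul_nonneg (by positivity) (by linarith)
    have b3 : 0 ≤ Real.log p * (f - 100) := mul_nonneg (by positivity) (by linarith)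
    nlinarith
  have a3 : Real.exp √(Real.log n) * 4 ≤ 2 * κ + 1 := by
    have b1 : (4 : ℝ) ≤ Real.exp 2 := by
      have := Real.add_one_le_exp (1 : ℝ)
      rw [show Real.exp 2 = Real.exp (1 + 1) by norm_num, Real.exp_add]; nlinarith
    refine (mul_le_mul (Real.exp_le_exp.2 a2) b1 (by norm_num) (by positivity)).trans ?_
    rw [← Real.exp_add, sub_add_cancel, Real.exp_nat_mul, Real.exp_log (by positivity)]
    exact_mod_cast hκ.ge
  obtain ⟨j, rfl⟩ : ∃ j, κ = j + 1 := ⟨κ - 1, by omega⟩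
  have j0 : (49 : ℝ) ≤ j := by exact_mod_cast (by omega : 49 ≤ j)
  refine (Real.exp_le_exp.2 (show _ ≤ j * Real.log 2 by push_cast at a3; nlinarith)).trans ?_
  rw [Real.exp_nat_mul, Real.exp_log two_pos]
  exact_mod_cast (by rw [pow_succ] at h2; omega : 2 ^ j ≤ R)

theorem main (k : Type) [Field k] (p : ℕ) [Fact p.Prime] [CharP k p] (hp : p ≠ 2) (n₀ : ℕ) :
    ∃ D : k[X], D.Monic ∧ Squarefree D ∧ Even D.natDegree ∧ n₀ ≤ D.natDegree ∧
      ∀ (t u : k[X]) (a : k), a ≠ 0 → u ≠ 0 → t ^ 2 - D * u ^ 2 = C a →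
        Real.exp (Real.exp √(Real.log D.natDegree)) ≤ t.natDegree := by
  have pp : p.Prime := Fact.out
  have p2 := pp.two_le
  obtain ⟨κ, hκ⟩ : Odd (p ^ (n₀ + 100)) := (pp.odd_of_ne_two hp).pow
  have h1 : n₀ + 100 < p ^ (n₀ + 100) := Nat.lt_pow_self (by omega)
  obtain ⟨D, d1, d2, d3, d4, d5, d6⟩ := key k p (n₀ + 100) κ hp hκ.symm (by omega)
  exact ⟨D, d1, d2, d3, by omega, fun t u a ha hu h =>
    real_part p _ κ _ _ (by omega) (by omega) hκ.symm (by omega) d5 (d6 t u a ha hu h)⟩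

end H16v
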